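import Pool.Agent.KS6_85.AR.Ord

/-!
# Counting the zeros and the poles of all twisted Artin L-functions
-/

set_option autoImplicit false
set_option linter.unusedSectionVars false

namespace Pool.Agent.KS6_85.AR

open Finset Filter Topology Complex
open Pool.Agent.R399.TW Pool.Agent.R399.TM
open Pool.Agent.KS6_85.SD
open scoped ComplexConjugate

/-- the sum of `|ord_s F| X ^ |Re s - 1/2|` -/
noncomputable def mass (F : ℂ → ℂ) (S : Set ℂ) (X : ℝ) : ℝ :=
  ∑ᶠ s ∈ S, |((meromorphicOrderAt F s).untop₀ : ℝ)| * X ^ |s.re - 1 / 2|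

/-- the same for an entire function -/
noncomputable def zm (L : ℂ → ℂ) (S : Set ℂ) (X : ℝ) : ℝ :=
  ∑ᶠ s ∈ {s : ℂ | s ∈ S ∧ L s = 0}, (analyticOrderNatAt L s : ℝ) * X ^ |s.re - 1 / 2|

lemma order_zero_of_ne {L : ℂ → ℂ} (hL : Differentiable ℂ L) {s : ℂ} (h : L s ≠ 0) :
    analyticOrderNatAt L s = 0 := by
  unfold analyticOrderNatAt
  rw [(hL.analyticAt s).analyticOrderAt_eq_zero.2 h]
  rfl

/-- the support is finite -/
theorem supp_finite {ι : Type} [Fintype ι] {F : ℂ → ℂ} {L : ι → ℂ → ℂ} {S : Set ℂ} {B : ℝ}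
    (hd : ∀ i, Differentiable ℂ (L i)) (hfin : ∀ i, {s : ℂ | s ∈ S ∧ L i s = 0}.Finite)
    (h : ∀ s ∈ S, |((meromorphicOrderAt F s).untop₀ : ℝ)| ≤
      B * ∑ i, (analyticOrderNatAt (L i) s : ℝ)) :
    {s : ℂ | s ∈ S ∧ (meromorphicOrderAt F s).untop₀ ≠ 0}.Finite := by
  classical
  refine (Set.finite_iUnion hfin).subset ?_
  rintro s ⟨hs, hs2⟩
  rw [Set.mem_iUnion]
  by_contra hcon
  push Not at hcon
  have h1 : ∀ i, analyticOrderNatAt (L i) s = 0 := fun i =>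
    order_zero_of_ne (hd i) fun h2 => hcon i ⟨hs, h2⟩
  have h2 := h s hs
  simp only [h1, Nat.cast_zero, Finset.sum_const_zero, mul_zero] at h2
  have h3 : ((meromorphicOrderAt F s).untop₀ : ℝ) = 0 := abs_eq_zero.1 (le_antisymm h2 (abs_nonneg _))
  exact hs2 (by exact_mod_cast h3)

/-- **comparison** -/
theorem mass_le {ι : Type} [Fintype ι] {F : ℂ → ℂ} {L : ι → ℂ → ℂ} {S : Set ℂ} {B X : ℝ}
    (hX : 0 ≤ X)
    (hd : ∀ i, Differentiable ℂ (L i)) (hfin : ∀ i, {s : ℂ | s ∈ S ∧ L i s = 0}.Finite)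
    (h : ∀ s ∈ S, |((meromorphicOrderAt F s).untop₀ : ℝ)| ≤
      B * ∑ i, (analyticOrderNatAt (L i) s : ℝ)) :
    mass F S X ≤ B * ∑ i, zm (L i) S X := by
  classical
  have hF := supp_finite hd hfin h
  set T : Finset ℂ := Finset.univ.biUnion fun i => (hfin i).toFinset with hT
  have hTS : ∀ s ∈ T, s ∈ S := by
    intro s hs
    rw [hT, Finset.mem_biUnion] at hs
    obtain ⟨i, -, hi⟩ := hs
    rw [Set.Finite.mem_toFinset] at hi
    exact hi.1
  have hout : ∀ s ∈ S, s ∉ T → ∀ i, analyticOrderNatAt (L i) s = 0 := by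
    intro s hs hsT i
    refine order_zero_of_ne (hd i) fun h2 => hsT ?_
    rw [hT, Finset.mem_biUnion]
    exact ⟨i, Finset.mem_univ i, (Set.Finite.mem_toFinset _).2 ⟨hs, h2⟩⟩
  have h1 : mass F S X = ∑ s ∈ T, |((meromorphicOrderAt F s).untop₀ : ℝ)| * X ^ |s.re - 1 / 2| := by
    unfold mass
    refine finsum_mem_eq_sum_of_inter_support_eq _ ?_
    ext s
    constructor
    · rintro ⟨hs, hs2⟩
      refine ⟨?_, hs2⟩
      by_contra hsT
      have h3 := h s hs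
      simp only [hout s hs hsT, Nat.cast_zero, Finset.sum_const_zero, mul_zero] at h3
      have h4 : |((meromorphicOrderAt F s).untop₀ : ℝ)| = 0 := le_antisymm h3 (abs_nonneg _)
      rw [Function.mem_support, h4, zero_mul] at hs2
      exact hs2 rfl
    · rintro ⟨hs, hs2⟩
      exact ⟨hTS s hs, hs2⟩
  have h2 : ∀ i, zm (L i) S X = ∑ s ∈ T, (analyticOrderNatAt (L i) s : ℝ) * X ^ |s.re - 1 / 2| := by
    intro i
    unfold zm
    rw [finsum_mem_eq_finite_toFinset_sum _ (hfin i)]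
    refine Finset.sum_subset (fun s hs => ?_) fun s hs hs2 => ?_
    · rw [hT, Finset.mem_biUnion]
      exact ⟨i, Finset.mem_univ i, hs⟩
    · have h3 : L i s ≠ 0 := fun h4 => hs2 ((Set.Finite.mem_toFinset _).2 ⟨hTS s hs, h4⟩)
      rw [order_zero_of_ne (hd i) h3, Nat.cast_zero, zero_mul]
  rw [h1]
  simp only [h2]
  rw [Finset.sum_comm, Finset.mul_sum]
  refine Finset.sum_le_sum fun s hs => ?_
  rw [← Finset.sum_mul, ← mul_assoc]
  exact mul_le_mul_of_nonneg_right (h s (hTS s hs)) (Real.rpow_nonneg hX _)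

lemma zm_one (L : ℂ → ℂ) {S : Set ℂ} (hfin : {s : ℂ | s ∈ S ∧ L s = 0}.Finite) :
    zm L S 1 = (nz L S : ℝ) := by
  unfold zm
  rw [nz_eq hfin, finsum_mem_eq_finite_toFinset_sum _ hfin]
  push_cast
  exact Finset.sum_congr rfl fun s _ => by rw [Real.one_rpow, mul_one]

lemma zm_mz (L : ℂ → ℂ) (Q : ℕ) (t H : ℝ) :
    zm L (reg2 0 t H) ((Q : ℝ) ^ (1 / 80 : ℝ)) = mz L Q t H := by
  unfold zm mz
  refine finsum_congr fun s => finsum_congr fun _ => ?_
  rw [← Real.rpow_mul (Nat.cast_nonneg Q)]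
  congr 2
  ring

/-- the region up to the height `T` as a box -/
lemma regT_eq (δ T : ℝ) : regT δ T = reg2 δ 0 T := by
  unfold regT reg2
  simp only [sub_zero]

/-- the members of a family are entire and do not vanish to the right of one -/
lemma fam_fin {m N : ℕ} {L : (q : ℕ) → DirichletCharacter ℂ q → ℂ → ℂ} (h : Fo m N L) {Q : ℕ}
    {i : Σ q : ℕ, DirichletCharacter ℂ q} (hi : i ∈ idx N Q) (δ t H : ℝ) :
    {s : ℂ | s ∈ reg2 δ t H ∧ L i.1 i.2 s = 0}.Finite := by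
  obtain ⟨hd, hne⟩ := fo_mem h hi
  exact fin_zeros hd (two_ne hne) (w := pt (1 / 2) t) (R := 1 + H) fun s hs => reg2_bd hs

end Pool.Agent.KS6_85.AR
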