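import Pool.Agent.KS6_85.AR.Ray
import Pool.Agent.KS6_16.TW.Main

/-!
# The twists of the linear characters of subgroups, as families
-/

set_option autoImplicit false
set_option linter.unusedSectionVars false

namespace Pool.Agent.KS6_85.AR

open NumberField IsDedekindDomain Filter Topology Pool.Agent.H921R2.TatePole Pool.Agent.W353.NF
  Pool.Agent.Q5.BR Pool.Agent.H541R3.ART Pool.Agent.Q92.AR Pool.Agent.KS6_16.TW
open Pool.Agent.Q92.RT (induced induced_conj induced_pair class_expand)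
open Pool.Agent.R399.TW (Fm)
open Pool.Agent.R399.TM (Fo)
open Pool.Agent.Y773 (LI)

/-- the properties of a family which are used -/
structure Fam (m N : ℕ) (L : (q : ℕ) → DirichletCharacter ℂ q → ℂ → ℂ) : Prop where
  fo : Fo m N L
  fm : Fm m N L
  sym : Sym N L

section
variable {K F M : Type} [Field K] [NumberField K] [Field F] [NumberField F] [Field M] [NumberField M]
  [Algebra K F] [Algebra K M] [Algebra F M] [IsScalarTower K F M]

variable [IsGalois K M] [IsGalois F M]

/-- **The twists of a linear character** of the group of `M/F`. -/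
theorem family_field (ψ : fixer K F M →* ℂˣ) :
    ∃ (N : ℕ) (L : (q : ℕ) → DirichletCharacter ℂ q → ℂ → ℂ), N ≠ 0 ∧
      Fam (Module.finrank ℚ F) N L ∧
      ∀ (q : ℕ) (χ : DirichletCharacter ℂ q), 2 ≤ q → Nat.Coprime q N → χ.IsPrimitive →
        Differentiable ℂ (L q χ) ∧ ∃ E : ℂ → ℂ, MeromorphicOn E Set.univ ∧
          (∀ s : ℂ, 1 < s.re → tL M (chn χ) (induced (fixer K F M) ψ) s = E s * L q χ s) ∧
          ∀ s : ℂ, 0 < s.re → AnalyticAt ℂ E s ∧ E s ≠ 0 := by
  classical
  set ψ' : (M ≃ₐ[F] M) →* ℂˣ := ψ.comp (resF K F M) with hψ'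
  obtain ⟨N, hN, -, hray⟩ := recip F M ψ'
  obtain ⟨𝔣, ψh, hp, hval⟩ := exists_prim hN hray
  obtain ⟨L, hL⟩ := Pool.Agent.N784.TD.exists_L hp
  obtain ⟨f1, f2⟩ := fam_ray hp hL
  refine ⟨Ideal.absNorm 𝔣 * (discr F).natAbs, L, ?_,
    ⟨f1, Pool.Agent.N784.TD.fam_ray hp hL, f2⟩, ?_⟩
  · refine mul_ne_zero (fun h => hp.ne_bot (Ideal.absNorm_eq_zero_iff.1 h)) ?_
    rw [Int.natAbs_ne_zero]
    exact discr_ne_zero F
  intro q χ hq hqN hχ
  obtain ⟨hd, hLI⟩ := hL q χ hq hqN hχ
  refine ⟨hd, ?_⟩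
  have htw := Pool.Agent.N784.TD.tw_prim hp hq hqN hχ
  have hn := htw.norm_le_one Pool.Agent.Y772.G.t_sig
  have he : ∀ w : HeightOneSpectrum (𝓞 F), (N : 𝓞 F) ∉ w.asIdeal →
      ψh w.asIdeal = ((ψ' (frob M w) : ℂˣ) : ℂ) := by
    intro w hw
    rw [hval w hw, art_single, one_smul]
    rfl
  set P : Set (HeightOneSpectrum (𝓞 F)) := {w | Unramified M (w.under (𝓞 K))} with hP
  set P' : Set (HeightOneSpectrum (𝓞 F)) := {v | (N : 𝓞 F) ∉ v.asIdeal} with hP'
  set χ1 : HeightOneSpectrum (𝓞 F) → ℂ := fun w => ((ψ' (frob M w) : ℂˣ) : ℂ) * chn χ (nm w)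
    with hχ1
  set χ2 : HeightOneSpectrum (𝓞 F) → ℂ := fun w => Pool.Agent.Y773.tw ψh χ w.asIdeal with hχ2
  have hb1 : ∀ w, ‖χ1 w‖ ≤ 1 := fun w => by
    rw [hχ1]
    simp only
    rw [norm_mul, norm_char, one_mul]
    exact chn_le _ _
  have hb2 : ∀ w, ‖χ2 w‖ ≤ 1 := fun w => hn _
  have heq : ∀ w ∈ P', χ1 w = χ2 w := by
    intro w hw
    rw [hχ1, hχ2]
    change _ = ψh w.asIdeal * χ ((Ideal.absNorm w.asIdeal : ℕ) : ZMod q)
    rw [he w hw]
    rfl
  have h1 : (P \ P').Finite := by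
    refine (mem_finite (F := F) hN).subset ?_
    rintro w ⟨-, hw⟩
    exact not_not.1 hw
  have h2 : (P' \ P).Finite := by
    refine (ramified_above_finite (K := K) (F := F) (M := M)).subset ?_
    rintro w ⟨-, hw⟩
    exact hw
  have h3 : (P' \ Set.univ).Finite := by
    refine Set.Finite.subset Set.finite_empty ?_
    rintro w ⟨-, hw⟩
    exact (hw (Set.mem_univ _)).elim
  have h4 : (Set.univ \ P').Finite := by
    refine (mem_finite (F := F) hN).subset ?_
    rintro w ⟨-, hw⟩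
    exact not_not.1 hw
  obtain ⟨E1, hE1, hE1b, hE1c⟩ := LP_compare (χ := χ1) (χ' := χ2) h1 h2 hb1 hb2
    (fun w hw => heq w hw.2)
  obtain ⟨E2, hE2, hE2b, hE2c⟩ := LP_compare (χ := χ2) (χ' := χ2) h3 h4 hb2 hb2
    (fun _ _ => rfl)
  refine ⟨fun s => E1 s * E2 s, fun s hs => (hE1 s hs).fun_mul (hE2 s hs), fun s hs => ?_,
    fun s hs => ⟨(hE1c s hs).1.fun_mul (hE2c s hs).1, mul_ne_zero (hE1c s hs).2 (hE2c s hs).2⟩⟩
  rw [tL_induced (chn_le χ) (chn_pow χ) ψ ψ' (fun y hy => rfl) hs, hLI s hs, LI_eq_LP hn hs]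
  change LP P χ1 s = E1 s * E2 s * LP Set.univ χ2 s
  rw [hE1b s hs, hE2b s hs]
  ring

end

section
variable {K M : Type} [Field K] [NumberField K] [Field M] [NumberField M] [Algebra K M]
  [IsGalois K M]

/-- **The twists of a linear character of a subgroup** `H` of the Galois group. -/
theorem family (H : Subgroup (M ≃ₐ[K] M)) (ψ : H →* ℂˣ) :
    ∃ (N : ℕ) (L : (q : ℕ) → DirichletCharacter ℂ q → ℂ → ℂ), N ≠ 0 ∧
      Fam (H.index * Module.finrank ℚ K) N L ∧
      ∀ (q : ℕ) (χ : DirichletCharacter ℂ q), 2 ≤ q → Nat.Coprime q N → χ.IsPrimitive →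
        Differentiable ℂ (L q χ) ∧ ∃ E : ℂ → ℂ, MeromorphicOn E Set.univ ∧
          (∀ s : ℂ, 1 < s.re → tL M (chn χ) (induced H ψ) s = E s * L q χ s) ∧
          ∀ s : ℂ, 0 < s.re → AnalyticAt ℂ E s ∧ E s ≠ 0 := by
  have h := fixer_fixedField (K := K) (M := M) H
  have hgal : IsGalois (IntermediateField.fixedField H) M := inferInstance
  let ψ1 : fixer K (IntermediateField.fixedField H) M →* ℂˣ :=
    ψ.comp (Subgroup.inclusion (le_of_eq h))
  have h2 : induced (fixer K (IntermediateField.fixedField H) M) ψ1 = induced H ψ :=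
    induced_congr h fun x hx hx' => rfl
  have h3 : Module.finrank ℚ (IntermediateField.fixedField H) = H.index * Module.finrank ℚ K := by
    have h4 : Module.finrank ℚ K * Module.finrank K (IntermediateField.fixedField H) =
        Module.finrank ℚ (IntermediateField.fixedField H) := Module.finrank_mul_finrank _ _ _
    have h5 : Module.finrank K (IntermediateField.fixedField H) = H.index := by
      have h6 := IntermediateField.finrank_fixedField_eq_card H
      have h7 : Module.finrank K (IntermediateField.fixedField H) *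
        Module.finrank (IntermediateField.fixedField H) M = Module.finrank K M :=
          Module.finrank_mul_finrank _ _ _
      have h8 : Nat.card (M ≃ₐ[K] M) = Module.finrank K M := IsGalois.card_aut_eq_finrank K M
      have h9 := H.index_mul_card
      rw [h8, ← h7, h6] at h9
      exact (Nat.eq_of_mul_eq_mul_right Nat.card_pos h9).symm
    rw [← h4, h5, mul_comm]
  have h4 := family_field (K := K) (F := IntermediateField.fixedField H) (M := M) ψ1
  rw [h2, h3] at h4
  exact h4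

end

end Pool.Agent.KS6_85.AR
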