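import Pool.Agent.KS6_85.AR.Cnt

/-!
# Density without loss for the zeros and the poles of all twisted Artin L-functions
-/

set_option autoImplicit false
set_option linter.unusedSectionVars false

namespace Pool.Agent.KS6_85.AR

open NumberField IsDedekindDomain Filter Topology Pool.Agent.H921R2.TatePole Pool.Agent.W353.NF
  Pool.Agent.Q5.BR Pool.Agent.H541R3.ART Pool.Agent.Q92.AR Pool.Agent.KS6_16.TW
open Pool.Agent.Q92.RT (induced)
open Pool.Agent.R399.TW (idx mem_idx)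
open Pool.Agent.KS6_85.SD (reg2 regT dens_two dens_T dens_mom nz mz)

/-- the three bounds for a family of meromorphic functions -/
structure Bds (N m : ℕ) (C : ℝ) (F : (q : ℕ) → DirichletCharacter ℂ q → ℂ → ℂ) : Prop where
  near : ∀ (Q : ℕ) (t H δ : ℝ), 1 ≤ Q → 0 ≤ H → H ≤ 1 → 0 ≤ δ → δ ≤ 1 / 2 →
    ∑ i ∈ idx N Q, mass (F i.1 i.2) (reg2 δ t H) 1 ≤
      C * (2 + |t|) ^ (3 * m + 2) * (1 + H * Real.log Q) * (Q : ℝ) ^ (2 - δ / 40)
  high : ∀ (Q : ℕ) (T δ : ℝ), 1 ≤ Q → 0 ≤ T → 0 ≤ δ → δ ≤ 1 / 2 →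
    ∑ i ∈ idx N Q, mass (F i.1 i.2) (reg2 δ 0 T) 1 ≤
      C * (2 + T) ^ (3 * m + 3) * (1 + Real.log Q) * (Q : ℝ) ^ (2 - δ / 40)
  mom : ∀ (Q : ℕ) (t H : ℝ), 1 ≤ Q → 0 ≤ H → H ≤ 1 →
    ∑ i ∈ idx N Q, mass (F i.1 i.2) (reg2 0 t H) ((Q : ℝ) ^ (1 / 80 : ℝ)) ≤
      C * (2 + |t|) ^ (3 * m + 2) * (1 + H * Real.log Q) * (Q : ℝ) ^ 2

lemma idx_sub {N N' Q : ℕ} (h : N' ∣ N) : idx N Q ⊆ idx N' Q := by
  intro i hi
  rw [mem_idx] at hi ⊢
  exact ⟨hi.1, Nat.Coprime.coprime_dvd_right h hi.2.1, hi.2.2⟩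

/-- **transfer** from finitely many families -/
theorem bds_of {ι : Type} [Fintype ι] {N m : ℕ} {Ni mi : ι → ℕ} {B : ℝ} (hB : 0 ≤ B)
    {L : ι → (q : ℕ) → DirichletCharacter ℂ q → ℂ → ℂ} (hL : ∀ i, Fam (mi i) (Ni i) (L i))
    (hN : ∀ i, Ni i ∣ N) (hmi : ∀ i, mi i ≤ m) (hm : m ≤ 3) :
    ∃ C : ℝ, 0 ≤ C ∧ ∀ (D : ℝ) (F : (q : ℕ) → DirichletCharacter ℂ q → ℂ → ℂ), 0 ≤ D →
      (∀ (q : ℕ) (χ : DirichletCharacter ℂ q), 2 ≤ q → Nat.Coprime q N → χ.IsPrimitive →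
        ∀ s : ℂ, 0 < s.re → |((meromorphicOrderAt (F q χ) s).untop₀ : ℝ)| ≤
          D * B * ∑ i, (analyticOrderNatAt (L i q χ) s : ℝ)) →
      Bds N m (C * D) F ∧ ∀ (q : ℕ) (χ : DirichletCharacter ℂ q), 2 ≤ q → Nat.Coprime q N →
        χ.IsPrimitive → ∀ δ t H : ℝ,
          {s : ℂ | s ∈ reg2 δ t H ∧ (meromorphicOrderAt (F q χ) s).untop₀ ≠ 0}.Finite := by
  classical
  have hmi3 : ∀ i, mi i ≤ 3 := fun i => (hmi i).trans hm
  choose C₁ hC₁ h1 using fun i => dens_two (hmi3 i) (hL i).fo (hL i).fm (hL i).sym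
  choose C₂ hC₂ h2 using fun i => dens_T (hmi3 i) (hL i).fo (hL i).fm (hL i).sym
  choose C₃ hC₃ h3 using fun i => dens_mom (hmi3 i) (hL i).fo (hL i).fm (hL i).sym
  have s1 : 0 ≤ ∑ i, C₁ i := Finset.sum_nonneg fun i _ => hC₁ i
  have s2 : 0 ≤ ∑ i, C₂ i := Finset.sum_nonneg fun i _ => hC₂ i
  have s3 : 0 ≤ ∑ i, C₃ i := Finset.sum_nonneg fun i _ => hC₃ i
  refine ⟨B * (∑ i, C₁ i + ∑ i, C₂ i + ∑ i, C₃ i), by positivity, ?_⟩
  intro D F hD hF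
  have hfin : ∀ (q : ℕ) (χ : DirichletCharacter ℂ q), 2 ≤ q → Nat.Coprime q N → χ.IsPrimitive →
      ∀ δ t H : ℝ, ∀ i, {s : ℂ | s ∈ reg2 δ t H ∧ L i q χ s = 0}.Finite := by
    intro q χ hq hqN hχ δ t H i
    have hi : (⟨q, χ⟩ : Σ q : ℕ, DirichletCharacter ℂ q) ∈ idx (Ni i) q := by
      rw [mem_idx]
      exact ⟨⟨hq, le_rfl⟩, Nat.Coprime.coprime_dvd_right (hN i) hqN, hχ⟩
    exact fam_fin (hL i).fo hi δ t H
  have hdiff : ∀ (q : ℕ) (χ : DirichletCharacter ℂ q), 2 ≤ q → Nat.Coprime q N → χ.IsPrimitive →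
      ∀ i, Differentiable ℂ (L i q χ) := by
    intro q χ hq hqN hχ i
    have hi : (⟨q, χ⟩ : Σ q : ℕ, DirichletCharacter ℂ q) ∈ idx (Ni i) q := by
      rw [mem_idx]
      exact ⟨⟨hq, le_rfl⟩, Nat.Coprime.coprime_dvd_right (hN i) hqN, hχ⟩
    exact (Pool.Agent.KS6_85.SD.fo_mem (hL i).fo hi).1
  -- the general comparison
  have key : ∀ (Q : ℕ) (δ t H X : ℝ), 0 ≤ X →
      ∑ i ∈ idx N Q, mass (F i.1 i.2) (reg2 δ t H) X ≤
        D * B * ∑ k, ∑ i ∈ idx (Ni k) Q, zm (L k i.1 i.2) (reg2 δ t H) X := by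
    intro Q δ t H X hX
    have e1 : ∀ i ∈ idx N Q, mass (F i.1 i.2) (reg2 δ t H) X ≤
        D * B * ∑ k, zm (L k i.1 i.2) (reg2 δ t H) X := by
      intro i hi
      rw [mem_idx] at hi
      obtain ⟨⟨g1, g2⟩, g3, g4⟩ := hi
      refine mass_le hX (hdiff i.1 i.2 g1 g3 g4) (hfin i.1 i.2 g1 g3 g4 δ t H) ?_
      intro s hs
      exact hF i.1 i.2 g1 g3 g4 s hs.1
    refine (Finset.sum_le_sum e1).trans ?_
    rw [← Finset.mul_sum, Finset.sum_comm]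
    refine mul_le_mul_of_nonneg_left (Finset.sum_le_sum fun k _ => ?_) (by positivity)
    refine Finset.sum_le_sum_of_subset_of_nonneg (idx_sub (hN k)) fun i hi _ => ?_
    unfold zm
    refine finsum_nonneg fun s => finsum_nonneg fun _ => ?_
    have := Real.rpow_nonneg hX |s.re - 1 / 2|
    positivity
  refine ⟨⟨?_, ?_, ?_⟩, ?_⟩
  · intro Q t H δ hQ hH0 hH1 hδ0 hδ
    have hq1 : (1 : ℝ) ≤ Q := by exact_mod_cast hQ
    have hlq : 0 ≤ Real.log Q := Real.log_nonneg hq1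
    have ht : (1 : ℝ) ≤ 2 + |t| := by linarith [abs_nonneg t]
    refine (key Q δ t H 1 zero_le_one).trans ?_
    have e2 : ∀ k, ∑ i ∈ idx (Ni k) Q, zm (L k i.1 i.2) (reg2 δ t H) 1 ≤
        C₁ k * ((2 + |t|) ^ (3 * m + 2) * (1 + H * Real.log Q) * (Q : ℝ) ^ (2 - δ / 40)) := by
      intro k
      have e3 : ∑ i ∈ idx (Ni k) Q, zm (L k i.1 i.2) (reg2 δ t H) 1 =
          ∑ i ∈ idx (Ni k) Q, (nz (L k i.1 i.2) (reg2 δ t H) : ℝ) :=
        Finset.sum_congr rfl fun i hi => zm_one _ (fam_fin (hL k).fo hi δ t H)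
      rw [e3]
      refine (h1 k Q t H δ hQ hH0 hH1 hδ0 hδ).trans ?_
      have e4 : (2 + |t|) ^ (3 * mi k + 2) ≤ (2 + |t|) ^ (3 * m + 2) :=
        pow_le_pow_right₀ ht (by have := hmi k; omega)
      calc C₁ k * (2 + |t|) ^ (3 * mi k + 2) * (1 + H * Real.log Q) * (Q : ℝ) ^ (2 - δ / 40)
          ≤ C₁ k * (2 + |t|) ^ (3 * m + 2) * (1 + H * Real.log Q) * (Q : ℝ) ^ (2 - δ / 40) := by
            have := hC₁ k
            gcongr
        _ = _ := by ring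
    calc D * B * ∑ k, ∑ i ∈ idx (Ni k) Q, zm (L k i.1 i.2) (reg2 δ t H) 1
        ≤ D * B * ∑ k, C₁ k * ((2 + |t|) ^ (3 * m + 2) * (1 + H * Real.log Q) *
            (Q : ℝ) ^ (2 - δ / 40)) := by
          gcongr with k _
          exact e2 k
      _ = D * B * (∑ k, C₁ k) * ((2 + |t|) ^ (3 * m + 2) * (1 + H * Real.log Q) *
            (Q : ℝ) ^ (2 - δ / 40)) := by rw [← Finset.sum_mul]; ring
      _ ≤ D * B * (∑ i, C₁ i + ∑ i, C₂ i + ∑ i, C₃ i) * ((2 + |t|) ^ (3 * m + 2) *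
            (1 + H * Real.log Q) * (Q : ℝ) ^ (2 - δ / 40)) := by
          gcongr
          linarith
      _ = _ := by ring
  · intro Q T δ hQ hT hδ0 hδ
    have hq1 : (1 : ℝ) ≤ Q := by exact_mod_cast hQ
    have hlq : 0 ≤ Real.log Q := Real.log_nonneg hq1
    have ht : (1 : ℝ) ≤ 2 + T := by linarith
    refine (key Q δ 0 T 1 zero_le_one).trans ?_
    have e2 : ∀ k, ∑ i ∈ idx (Ni k) Q, zm (L k i.1 i.2) (reg2 δ 0 T) 1 ≤
        C₂ k * ((2 + T) ^ (3 * m + 3) * (1 + Real.log Q) * (Q : ℝ) ^ (2 - δ / 40)) := by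
      intro k
      have e3 : ∑ i ∈ idx (Ni k) Q, zm (L k i.1 i.2) (reg2 δ 0 T) 1 =
          ∑ i ∈ idx (Ni k) Q, (nz (L k i.1 i.2) (regT δ T) : ℝ) :=
        Finset.sum_congr rfl fun i hi => by
          rw [zm_one _ (fam_fin (hL k).fo hi δ 0 T), regT_eq]
      rw [e3]
      refine (h2 k Q T δ hQ hT hδ0 hδ).trans ?_
      have e4 : (2 + T) ^ (3 * mi k + 3) ≤ (2 + T) ^ (3 * m + 3) :=
        pow_le_pow_right₀ ht (by have := hmi k; omega)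
      calc C₂ k * (2 + T) ^ (3 * mi k + 3) * (1 + Real.log Q) * (Q : ℝ) ^ (2 - δ / 40)
          ≤ C₂ k * (2 + T) ^ (3 * m + 3) * (1 + Real.log Q) * (Q : ℝ) ^ (2 - δ / 40) := by
            have := hC₂ k
            gcongr
        _ = _ := by ring
    calc D * B * ∑ k, ∑ i ∈ idx (Ni k) Q, zm (L k i.1 i.2) (reg2 δ 0 T) 1
        ≤ D * B * ∑ k, C₂ k * ((2 + T) ^ (3 * m + 3) * (1 + Real.log Q) *
            (Q : ℝ) ^ (2 - δ / 40)) := by
          gcongr with k _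
          exact e2 k
      _ = D * B * (∑ k, C₂ k) * ((2 + T) ^ (3 * m + 3) * (1 + Real.log Q) *
            (Q : ℝ) ^ (2 - δ / 40)) := by rw [← Finset.sum_mul]; ring
      _ ≤ D * B * (∑ i, C₁ i + ∑ i, C₂ i + ∑ i, C₃ i) * ((2 + T) ^ (3 * m + 3) *
            (1 + Real.log Q) * (Q : ℝ) ^ (2 - δ / 40)) := by
          gcongr
          linarith
      _ = _ := by ring
  · intro Q t H hQ hH0 hH1
    have hq1 : (1 : ℝ) ≤ Q := by exact_mod_cast hQ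
    have hlq : 0 ≤ Real.log Q := Real.log_nonneg hq1
    have ht : (1 : ℝ) ≤ 2 + |t| := by linarith [abs_nonneg t]
    refine (key Q 0 t H _ (by positivity)).trans ?_
    have e2 : ∀ k, ∑ i ∈ idx (Ni k) Q, zm (L k i.1 i.2) (reg2 0 t H) ((Q : ℝ) ^ (1 / 80 : ℝ)) ≤
        C₃ k * ((2 + |t|) ^ (3 * m + 2) * (1 + H * Real.log Q) * (Q : ℝ) ^ 2) := by
      intro k
      simp only [zm_mz]
      refine (h3 k Q t H hQ hH0 hH1).trans ?_
      have e4 : (2 + |t|) ^ (3 * mi k + 2) ≤ (2 + |t|) ^ (3 * m + 2) :=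
        pow_le_pow_right₀ ht (by have := hmi k; omega)
      calc C₃ k * (2 + |t|) ^ (3 * mi k + 2) * (1 + H * Real.log Q) * (Q : ℝ) ^ 2
          ≤ C₃ k * (2 + |t|) ^ (3 * m + 2) * (1 + H * Real.log Q) * (Q : ℝ) ^ 2 := by
            have := hC₃ k
            gcongr
        _ = _ := by ring
    calc D * B * ∑ k, ∑ i ∈ idx (Ni k) Q, zm (L k i.1 i.2) (reg2 0 t H) ((Q : ℝ) ^ (1 / 80 : ℝ))
        ≤ D * B * ∑ k, C₃ k * ((2 + |t|) ^ (3 * m + 2) * (1 + H * Real.log Q) *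
            (Q : ℝ) ^ 2) := by
          gcongr with k _
          exact e2 k
      _ = D * B * (∑ k, C₃ k) * ((2 + |t|) ^ (3 * m + 2) * (1 + H * Real.log Q) *
            (Q : ℝ) ^ 2) := by rw [← Finset.sum_mul]; ring
      _ ≤ D * B * (∑ i, C₁ i + ∑ i, C₂ i + ∑ i, C₃ i) * ((2 + |t|) ^ (3 * m + 2) *
            (1 + H * Real.log Q) * (Q : ℝ) ^ 2) := by
          gcongr
          linarith
      _ = _ := by ring
  · intro q χ hq hqN hχ δ t H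
    refine supp_finite (hdiff q χ hq hqN hχ) (hfin q χ hq hqN hχ δ t H) (B := D * B) ?_
    intro s hs
    exact hF q χ hq hqN hχ s hs.1

section
variable {K M : Type} [Field K] [NumberField K] [Field M] [NumberField M] [Algebra K M]
  [IsGalois K M]

/-- **The main theorem.** -/
theorem main {n m : ℕ} (hs : Spans (M ≃ₐ[K] M) n) (hnm : m = n * Module.finrank ℚ K) (hm : m ≤ 3) :
    ∃ (N : ℕ) (C : ℝ), 0 < N ∧ 0 ≤ C ∧
    (∀ (q : ℕ) (χ : DirichletCharacter ℂ q), 2 ≤ q → Nat.Coprime q N → χ.IsPrimitive →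
      Good K M q χ) ∧
    ∀ (P : HeightOneSpectrum (𝓞 K) → Ideal (𝓞 M)) (σ : HeightOneSpectrum (𝓞 K) → M ≃ₐ[K] M)
      (_ : ∀ v, IsFrob v (P v) (σ v)) (V : Type) [AddCommGroup V] [Module ℂ V]
      [FiniteDimensional ℂ V] (ρ : Representation ℂ (M ≃ₐ[K] M) V)
      (F : (q : ℕ) → DirichletCharacter ℂ q → ℂ → ℂ),
      (∀ (q : ℕ) (χ : DirichletCharacter ℂ q), 2 ≤ q → Nat.Coprime q N → χ.IsPrimitive →
        IsL P σ ρ χ (F q χ)) →
      Bds N m (C * Module.finrank ℂ V) F ∧ ∀ (q : ℕ) (χ : DirichletCharacter ℂ q), 2 ≤ q →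
        Nat.Coprime q N → χ.IsPrimitive → ∀ δ t H : ℝ,
          {s : ℂ | s ∈ reg2 δ t H ∧ (meromorphicOrderAt (F q χ) s).untop₀ ≠ 0}.Finite := by
  classical
  obtain ⟨ι, _, H, ψ, c, hind, hone, hreg⟩ := hs
  obtain ⟨N₀, hN0, hN⟩ := exists_level (K := K) (M := M)
  choose Ni L hNi hFam hL using fun i => family (K := K) (M := M) (H i) (ψ i)
  set N : ℕ := N₀ * ∏ i, Ni i with hNd
  have hNN : 0 < N := Nat.pos_of_ne_zero
    (mul_ne_zero hN0 (Finset.prod_ne_zero_iff.2 fun i _ => hNi i))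
  have hdvd : ∀ i, Ni i ∣ N := fun i =>
    (Finset.dvd_prod_of_mem Ni (Finset.mem_univ i)).trans (dvd_mul_left _ _)
  have hgood : ∀ (q : ℕ) (χ : DirichletCharacter ℂ q), 2 ≤ q → Nat.Coprime q N → χ.IsPrimitive →
      Good K M q χ := fun q χ h2 hc hp =>
    ⟨h2, fun H ψ => Nat.Coprime.coprime_dvd_right ((hN H ψ).trans (dvd_mul_right _ _)) hc, hp⟩
  set B : ℝ := (∑ i, ‖c i‖) * Nat.card (M ≃ₐ[K] M) / ‖∑ i, c i * induced (H i) (ψ i) 1‖ with hB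
  have hB0 : 0 ≤ B := by
    have : 0 ≤ ∑ i, ‖c i‖ := Finset.sum_nonneg fun i _ => norm_nonneg _
    positivity
  obtain ⟨C, hC, hbd⟩ := bds_of (N := N) (m := m) (mi := fun i => (H i).index * Module.finrank ℚ K)
    hB0 hFam hdvd (fun i => by rw [hnm]; exact Nat.mul_le_mul_right _ (hind i)) hm
  refine ⟨N, C, hNN, hC, hgood, ?_⟩
  intro P σ hPσ V _ _ _ ρ F hF
  refine hbd (Module.finrank ℂ V) F (Nat.cast_nonneg _) ?_
  intro q χ hq hqN hχ s hs0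
  have hg := hgood q χ hq hqN hχ
  obtain ⟨mm, hmm⟩ := char_sum ρ
  have h1 := order_rep hg hPσ ρ (hF q χ hq hqN hχ) hs0 hmm
  rw [h1]
  have h2 := theta_one_le (twData hg hs0).isHeilbronn H ψ c hone hreg
    (fun i => analyticOrderNatAt (L i q χ) s)
    (fun i => order_lin hg (hL i q χ hq (Nat.Coprime.coprime_dvd_right (hdvd i) hqN) hχ) hs0)
  -- the dimension
  have hdim : (Module.finrank ℂ V : ℝ) = ∑ φ ∈ irrF (M ≃ₐ[K] M), (mm φ : ℝ) * (φ 1).re := by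
    have h3 := congrFun hmm 1
    rw [Representation.char_one] at h3
    have h4 := congrArg Complex.re h3
    rw [Complex.natCast_re, Complex.re_sum] at h4
    rw [h4]
    refine Finset.sum_congr rfl fun φ _ => ?_
    rw [← Complex.ofReal_natCast, Complex.re_ofReal_mul]
  have h5 : |(((((∑ φ ∈ irrF (M ≃ₐ[K] M), (mm φ : ℤ) * (twData hg hs0).ord φ : ℤ) :
      WithTop ℤ)).untop₀ : ℤ) : ℝ)| ≤
      Module.finrank ℂ V * ‖theta (twData hg hs0).ord (1 : M ≃ₐ[K] M)‖ := by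
    rw [WithTop.untop₀_coe]
    push_cast
    refine (Finset.abs_sum_le_sum_abs _ _).trans ?_
    rw [hdim, Finset.sum_mul]
    refine Finset.sum_le_sum fun φ hφ => ?_
    rw [abs_mul, Nat.abs_cast, mul_assoc]
    exact mul_le_mul_of_nonneg_left (ord_le _ (mem_irrF.1 hφ)) (Nat.cast_nonneg _)
  refine h5.trans ?_
  rw [mul_assoc]
  exact mul_le_mul_of_nonneg_left h2 (Nat.cast_nonneg _)

end

end Pool.Agent.KS6_85.AR
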