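import Pool.Agent.KS6_85.AR.Fam

/-!
# The orders of all Artin L-functions at a point are bounded by those of monomial ones
-/

set_option autoImplicit false
set_option linter.unusedSectionVars false

namespace Pool.Agent.KS6_85.AR

open NumberField IsDedekindDomain Filter Topology Pool.Agent.H921R2.TatePole Pool.Agent.W353.NF
  Pool.Agent.Q5.BR Pool.Agent.H541R3.ART Pool.Agent.Q92.AR Pool.Agent.KS6_16.TW
open Pool.Agent.Q92.RT (induced induced_conj induced_pair class_expand)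
open Pool.Agent.H302R2 (IsHeilbronn)

section
variable {G : Type} [Group G] [Finite G]

/-- irreducible characters are Heilbronn functions -/
theorem irr_heil {φ : G → ℂ} (hφ : φ ∈ Irr G) : IsHeilbronn φ :=
  ⟨fun g h => Irr.conj hφ g h, fun H ψ => exists_mult hφ H ψ⟩

theorem irr_norm {φ : G → ℂ} (hφ : φ ∈ Irr G) (g : G) : ‖φ g‖ ≤ (φ 1).re :=
  (irr_heil hφ).norm_le g

/-- The value at `1` of a Heilbronn function is bounded by its pairings with characters which span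
the regular character. -/
theorem theta_one_le {θ : G → ℂ} (hθ : IsHeilbronn θ) {ι : Type} [Fintype ι]
    (H : ι → Subgroup G) (ψ : ∀ i, H i →* ℂˣ) (c : ι → ℂ)
    (hone : ∑ i, c i * induced (H i) (ψ i) 1 ≠ 0)
    (hreg : ∀ g, g ≠ 1 → ∑ i, c i * induced (H i) (ψ i) g = 0) (o : ι → ℕ)
    (h0 : ∀ i, ∑ᶠ h : H i, θ h * (((ψ i h)⁻¹ : ℂˣ) : ℂ) = (o i : ℂ) * (Nat.card (H i) : ℂ)) :
    ‖θ 1‖ ≤ (∑ i, ‖c i‖) * Nat.card G / ‖∑ i, c i * induced (H i) (ψ i) 1‖ * ∑ i, (o i : ℝ) := by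
  classical
  have : Fintype G := Fintype.ofFinite G
  have h1 : ∀ i, ∑ g, induced (H i) (ψ i) g * θ g⁻¹ = (o i : ℂ) * Nat.card G := fun i =>
    induced_pair (H i) (ψ i) (fun g x => hθ.conj g x) (h0 i)
  have h2 : ∑ g, (∑ i, c i * induced (H i) (ψ i) g) * θ g⁻¹ =
      ∑ i, c i * ((o i : ℂ) * Nat.card G) := by
    simp_rw [Finset.sum_mul]
    rw [Finset.sum_comm]
    refine Finset.sum_congr rfl fun i _ => ?_
    simp_rw [mul_assoc]
    rw [← Finset.mul_sum, h1 i]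
  rw [Finset.sum_eq_single 1] at h2
  · rw [inv_one] at h2
    set D : ℂ := ∑ i, c i * induced (H i) (ψ i) 1 with hD
    have hD0 : 0 < ‖D‖ := norm_pos_iff.2 hone
    have h3 : ‖D‖ * ‖θ 1‖ ≤ (∑ i, ‖c i‖) * Nat.card G * ∑ i, (o i : ℝ) := by
      rw [← norm_mul, h2]
      refine (norm_sum_le _ _).trans ?_
      calc ∑ i, ‖c i * ((o i : ℂ) * Nat.card G)‖ = ∑ i, ‖c i‖ * (o i : ℝ) * Nat.card G := by
            refine Finset.sum_congr rfl fun i _ => ?_
            rw [norm_mul, norm_mul, Complex.norm_natCast, Complex.norm_natCast, mul_assoc]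
        _ ≤ ∑ i, ‖c i‖ * (∑ j, (o j : ℝ)) * Nat.card G := by
            refine Finset.sum_le_sum fun i _ => ?_
            gcongr
            exact Finset.single_le_sum (f := fun j => (o j : ℝ)) (fun j _ => Nat.cast_nonneg _)
              (Finset.mem_univ i)
        _ = _ := by
            rw [← Finset.sum_mul, ← Finset.sum_mul]
            ring
    rw [div_mul_eq_mul_div, le_div_iff₀ hD0]
    linarith
  · intro b _ hb
    rw [hreg b hb, zero_mul]
  · intro h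
    exact absurd (Finset.mem_univ _) h

/-- the orders are bounded by the value at `1` -/
theorem ord_le {s₀ : ℂ} (A : ArtinData G s₀) {φ : G → ℂ} (hφ : φ ∈ Irr G) :
    |(A.ord φ : ℝ)| ≤ (φ 1).re * ‖theta A.ord (1 : G)‖ := by
  classical
  have : Fintype G := Fintype.ofFinite G
  have h := theta_pair A.ord hφ
  have hG : (0 : ℝ) < Nat.card G := by exact_mod_cast Nat.card_pos
  have h1 : |(A.ord φ : ℝ)| * Nat.card G ≤
      ((φ 1).re * ‖theta A.ord (1 : G)‖) * Nat.card G := by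
    have h2 : ‖(A.ord φ : ℂ) * Nat.card G‖ = |(A.ord φ : ℝ)| * Nat.card G := by
      rw [norm_mul, Complex.norm_natCast, Complex.norm_intCast]
    rw [← h2, ← h]
    refine (norm_sum_le _ _).trans ?_
    calc ∑ g, ‖theta A.ord g * φ g⁻¹‖ ≤ ∑ _g : G, (φ 1).re * ‖theta A.ord (1 : G)‖ := by
          refine Finset.sum_le_sum fun g _ => ?_
          rw [norm_mul, mul_comm]
          have h3 := irr_norm hφ g⁻¹
          have h4 := (A.isHeilbronn.norm_le g).trans (Complex.re_le_norm _)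
          have h5 : 0 ≤ (φ 1).re := (norm_nonneg _).trans h3
          exact mul_le_mul h3 h4 (norm_nonneg _) h5
      _ = _ := by
          rw [Finset.sum_const, Finset.card_univ, nsmul_eq_mul, Nat.card_eq_fintype_card]
          ring
  exact le_of_mul_le_mul_right h1 hG

end

section
variable {K M : Type} [Field K] [NumberField K] [Field M] [NumberField M] [Algebra K M]
  [IsGalois K M]
variable {V : Type} [AddCommGroup V] [Module ℂ V] [FiniteDimensional ℂ V]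
variable {q : ℕ} {χ : DirichletCharacter ℂ q}
variable {P : HeightOneSpectrum (𝓞 K) → Ideal (𝓞 M)} {σ : HeightOneSpectrum (𝓞 K) → M ≃ₐ[K] M}

/-- the order of the L-function of a representation -/
theorem order_rep (hg : Good K M q χ) (h : ∀ v, IsFrob v (P v) (σ v))
    (ρ : Representation ℂ (M ≃ₐ[K] M) V) {F : ℂ → ℂ} (hF : IsL P σ ρ χ F) {s₀ : ℂ} (h0 : 0 < s₀.re)
    {m : ((M ≃ₐ[K] M) → ℂ) → ℕ}
    (hm : ρ.character = fun g => ∑ φ ∈ irrF (M ≃ₐ[K] M), (m φ : ℂ) * φ g) :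
    meromorphicOrderAt F s₀ = ((∑ φ ∈ irrF (M ≃ₐ[K] M), (m φ : ℤ) * (twData hg h0).ord φ : ℤ) :
      WithTop ℤ) := by
  classical
  obtain ⟨E, hE1, hE2, hE3⟩ := exists_ram (chn_le χ) ρ h
  set Z : ℂ → ℂ := fun s => ∏ φ ∈ irrF (M ≃ₐ[K] M), cont (tL M (chn χ) φ) s ^ m φ with hZ
  have hc : ∀ φ ∈ irrF (M ≃ₐ[K] M), Continues (cont (tL M (chn χ) φ)) (tL M (chn χ) φ) :=
    fun φ hφ => cont_spec (mero_tw hg (mem_irrF.1 hφ))
  have hZc : Continues Z (tL M (chn χ) ρ.character) := by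
    refine ⟨fun s hs => MeromorphicAt.fun_prod fun φ hφ => ((hc φ hφ).1 s hs).fun_pow _,
      fun s hs => ?_⟩
    rw [hm, tL_sum (irrF (M ≃ₐ[K] M)) (chn_le χ) m (fun φ => φ) hs]
    exact Finset.prod_congr rfl fun φ hφ => by rw [(hc φ hφ).2 s hs]
  have h1 : Continues F (fun s => tL M (chn χ) ρ.character s * E s) := by
    refine ⟨hF.1, fun s hs => ?_⟩
    have h2 := hasProd_euler (chn_le χ) ρ h hs
    rw [← hE2 s] at h2
    exact (hF.2 s hs).unique h2
  have h2 : Continues (fun s => Z s * E s) (fun s => tL M (chn χ) ρ.character s * E s) := by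
    refine ⟨fun s hs => (hZc.1 s hs).fun_mul (hE1 s hs), fun s hs => ?_⟩
    change Z s * E s = _
    rw [hZc.2 s hs]
  rw [h1.order_eq h2 (fun _ _ => rfl) s₀]
  obtain ⟨h3, h4⟩ := hE3 s₀ h0
  rw [fun_meromorphicOrderAt_mul (hZc.1 s₀ (Set.mem_univ _)) h3.meromorphicAt,
    h3.meromorphicOrderAt_eq, h3.analyticOrderAt_eq_zero.2 h4]
  have h5 : meromorphicOrderAt Z s₀ =
      ((∑ φ ∈ irrF (M ≃ₐ[K] M), (m φ : ℤ) * (twData hg h0).ord φ : ℤ) : WithTop ℤ) := by
    have h6 : Z = fun s => ∏ φ ∈ irrF (M ≃ₐ[K] M), (cont (tL M (chn χ) φ) ^ m φ) s := rfl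
    rw [h6, meromorphicOrderAt_fun_prod fun φ hφ => ((hc φ hφ).1 s₀ (Set.mem_univ _)).pow _,
      WithTop.coe_sum]
    refine Finset.sum_congr rfl fun φ hφ => ?_
    have h7 := (twData hg h0).coe_ord (mem_irrF.1 hφ)
    rw [meromorphicOrderAt_pow ((hc φ hφ).1 s₀ (Set.mem_univ _))]
    have h8 : meromorphicOrderAt (cont (tL M (chn χ) φ)) s₀ =
      (((twData hg h0).ord φ : ℤ) : WithTop ℤ) := h7.symm
    rw [h8]
    push_cast
    rfl
  rw [h5]
  simp

/-- the order of a linear L-function -/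
theorem order_lin (hg : Good K M q χ) {L : (q : ℕ) → DirichletCharacter ℂ q → ℂ → ℂ}
    {H : Subgroup (M ≃ₐ[K] M)} {ψ : H →* ℂˣ}
    (hL : Differentiable ℂ (L q χ) ∧ ∃ E : ℂ → ℂ, MeromorphicOn E Set.univ ∧
          (∀ s : ℂ, 1 < s.re → tL M (chn χ) (induced H ψ) s = E s * L q χ s) ∧
          ∀ s : ℂ, 0 < s.re → AnalyticAt ℂ E s ∧ E s ≠ 0) {s₀ : ℂ} (h0 : 0 < s₀.re) :
    ∑ᶠ h : H, theta (twData hg h0).ord h * (((ψ h)⁻¹ : ℂˣ) : ℂ) =
      (analyticOrderNatAt (L q χ) s₀ : ℂ) * (Nat.card H : ℂ) := by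
  obtain ⟨hd, E, hE1, hE2, hE3⟩ := hL
  obtain ⟨h1, h2⟩ := hE3 s₀ h0
  have hc : Continues (fun s => E s * L q χ s) (tL M (chn χ) (induced H ψ)) :=
    ⟨fun s hs => (hE1 s hs).fun_mul (hd.analyticAt s).meromorphicAt, fun s hs => (hE2 s hs).symm⟩
  choose! m hm using fun χ (hχ : χ ∈ Irr (M ≃ₐ[K] M)) => exists_mult hχ H ψ
  have h3 := (twData hg h0).order_Lin H ψ m hm
  have h4 := theta_mult (twData hg h0).ord H ψ m hm
  have h5 : meromorphicOrderAt ((twData hg h0).Lin H ψ) s₀ =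
      meromorphicOrderAt (fun s => E s * L q χ s) s₀ :=
    (cont_spec ⟨_, hc⟩).order_eq hc (fun _ _ => rfl) s₀
  have hne : L q χ 2 ≠ 0 := by
    intro h6
    have h7 := hE2 2 (by norm_num)
    rw [h6, mul_zero] at h7
    exact tL_ne_zero _ _ _ h7
  have h8 : analyticOrderAt (L q χ) s₀ ≠ ⊤ := Pool.Agent.KS6_85.SD.ord_ne_top hd hne s₀
  have h9 : meromorphicOrderAt (fun s => E s * L q χ s) s₀ =
      ((analyticOrderNatAt (L q χ) s₀ : ℤ) : WithTop ℤ) := by
    rw [fun_meromorphicOrderAt_mul h1.meromorphicAt (hd.analyticAt s₀).meromorphicAt,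
      h1.meromorphicOrderAt_eq, h1.analyticOrderAt_eq_zero.2 h2,
      (hd.analyticAt s₀).meromorphicOrderAt_eq]
    obtain ⟨k, hk⟩ := ENat.ne_top_iff_exists.1 h8
    unfold analyticOrderNatAt
    rw [← hk]
    simp
  rw [h5, h9] at h3
  have h10 : (analyticOrderNatAt (L q χ) s₀ : ℤ) =
      ∑ χ ∈ irrF (M ≃ₐ[K] M), (m χ : ℤ) * (twData hg h0).ord χ := WithTop.coe_injective h3
  rw [h4, ← h10]
  push_cast
  rfl

end

end Pool.Agent.KS6_85.AR
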