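import Pool.Agent.KS6_85.SD.Mom
import Pool.Graph.R_pool_sql_team_seeded_63374d34.N784.TD

/-!
# The twists of a ray class character of an arbitrary number field

As `Pool.Agent.N784.TD.fam_ray`, with the family property `Fo` and the symmetry of the orders.
-/

set_option autoImplicit false

namespace Pool.Agent.KS6_85.AR

open Finset Filter Topology Complex MeasureTheory NumberField
open ArithmeticFunction (vonMangoldt)
open Pool.Agent.Y767.CA (GGc FEc)
open Pool.Agent.Y773 (LI cc absNorm_span_nat mul_span_ne_top FEd GG)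
open Pool.Agent.R399.TW Pool.Agent.R399.TM
open Pool.Agent.KS6_85.SD (refl_ord)
open Pool.Agent.N784.TD (fec_of_fed eq_of_LI tw_prim)
open scoped ComplexConjugate

variable {K : Type} [Field K] [NumberField K]

/-- the orders of the zeros are symmetric -/
def Sym (N : ℕ) (L : (q : ℕ) → DirichletCharacter ℂ q → ℂ → ℂ) : Prop :=
  ∀ (q : ℕ) (χ : DirichletCharacter ℂ q), 2 ≤ q → Nat.Coprime q N → χ.IsPrimitive →
    ∀ s : ℂ, 0 < s.re → s.re < 1 / 2 →
      analyticOrderAt (L q χ) s = analyticOrderAt (L q χ) (1 - conj s)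

/-- **the family of twists of a ray class character** -/
theorem fam_ray {𝔣 : Ideal (𝓞 K)} {ψ : Ideal (𝓞 K) →*₀ ℂ} (hψ : Pool.Agent.Y773.G.IsPrimChar K 𝔣 ψ)
    {L : (q : ℕ) → DirichletCharacter ℂ q → ℂ → ℂ}
    (hL : ∀ (q : ℕ) (χ : DirichletCharacter ℂ q), 2 ≤ q →
      Nat.Coprime q (Ideal.absNorm 𝔣 * (discr K).natAbs) → χ.IsPrimitive →
      Differentiable ℂ (L q χ) ∧ ∀ s : ℂ, 1 < s.re → L q χ s = LI (Pool.Agent.Y773.tw ψ χ) s) :
    Fo (Module.finrank ℚ K) (Ideal.absNorm 𝔣 * (discr K).natAbs) L ∧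
      Sym (Ideal.absNorm 𝔣 * (discr K).natAbs) L := by
  obtain ⟨A₀, hA₀, hD⟩ := Pool.Agent.Y772.DK.t_dirK K
  have hψn := hψ.norm_le_one Pool.Agent.Y772.G.t_sig
  obtain ⟨-, -, -, -, -, -, b1, -, -, -, d11⟩ := hD ψ hψn
  have hLin : Lin (cc ψ) := by
    intro σ hσ
    refine Summable.of_nonneg_of_le (fun n => ?_) (fun n => ?_)
      ((Pool.Agent.Y767.CA.summable_vm hσ).mul_left (Module.finrank ℚ K : ℝ))
    · have := vm_nn n
      positivity
    · have h1 := vm_nn n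
      have h2 := b1 n
      calc vonMangoldt n * ‖cc ψ n‖ * (n : ℝ) ^ (-σ)
          ≤ vonMangoldt n * (Module.finrank ℚ K : ℝ) * (n : ℝ) ^ (-σ) := by gcongr
        _ = _ := by ring
  have hne : Nonempty (K →+* ℂ) := inferInstance
  have hkey : ∀ (q : ℕ) (χ : DirichletCharacter ℂ q), 2 ≤ q →
      Nat.Coprime q (Ideal.absNorm 𝔣 * (discr K).natAbs) → χ.IsPrimitive →
      Mem (cc ψ) (((Ideal.absNorm 𝔣 * Ideal.absNorm (differentIdeal ℤ (𝓞 K)) : ℕ) : ℝ) *
        (q : ℝ) ^ (Module.finrank ℚ K)) (3 * (1 + 4)) (Module.finrank ℚ K) (chs χ) (L q χ) ∧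
      ∀ s : ℂ, 0 < s.re → s.re < 1 / 2 →
        analyticOrderAt (L q χ) s = analyticOrderAt (L q χ) (1 - conj s) := by
    intro q χ hq hqN hχ
    have htw := tw_prim hψ hq hqN hχ
    obtain ⟨hd, hs⟩ := hL q χ hq hqN hχ
    have hψ1 := htw.norm_le_one Pool.Agent.Y772.G.t_sig
    obtain ⟨-, d2, d3, d4, -, -, -, -, -, -, -⟩ := hD (Pool.Agent.Y773.tw ψ χ) hψ1
    obtain ⟨e', he'⟩ := htw.isModChar Pool.Agent.Y772.G.t_sig (mul_span_ne_top hq)
    obtain ⟨G, hG, hGL⟩ := Pool.Agent.Y773.G.fe_prim htw he'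
    have hFG : L q χ = G := eq_of_LI hd hG.diff (fun s h => by rw [hs s h, hGL s h])
    rw [← hFG] at hG
    obtain ⟨e, he⟩ : ∃ e : (K →+* ℂ) → ℕ, e = Pool.Agent.Y773.G.ex e' := ⟨_, rfl⟩
    rw [← he] at hG
    have hFE := fec_of_fed hG hne
    -- the conductor
    have hRe : ((Ideal.absNorm (𝔣 * Ideal.span {(q : 𝓞 K)}) *
        Ideal.absNorm (differentIdeal ℤ (𝓞 K)) : ℕ) : ℝ) =
        ((Ideal.absNorm 𝔣 * Ideal.absNorm (differentIdeal ℤ (𝓞 K)) : ℕ) : ℝ) *
          (q : ℝ) ^ (Module.finrank ℚ K) := by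
      rw [map_mul, absNorm_span_nat]
      push_cast
      ring
    have hR : (0 : ℝ) < ((Ideal.absNorm 𝔣 * Ideal.absNorm (differentIdeal ℤ (𝓞 K)) : ℕ) : ℝ) *
          (q : ℝ) ^ (Module.finrank ℚ K) := by
      have h1 : 0 < Ideal.absNorm 𝔣 := Nat.pos_of_ne_zero fun h =>
        hψ.ne_bot (Ideal.absNorm_eq_zero_iff.1 h)
      have h2 : 0 < Ideal.absNorm (differentIdeal ℤ (𝓞 K)) := Nat.pos_of_ne_zero fun h =>
        differentIdeal_ne_bot (Ideal.absNorm_eq_zero_iff.1 h)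
      have h3 : (0 : ℝ) < ((Ideal.absNorm 𝔣 * Ideal.absNorm (differentIdeal ℤ (𝓞 K)) : ℕ) : ℝ) := by
        exact_mod_cast Nat.mul_pos h1 h2
      have h4 : (0 : ℝ) < q := by exact_mod_cast (show 0 < q by omega)
      positivity
    rw [hRe] at hFE
    have hμre : ∀ i, ((e i : ℕ) : ℂ).re = e i := fun i => by simp
    have hmem : Mem (cc ψ) (((Ideal.absNorm 𝔣 * Ideal.absNorm (differentIdeal ℤ (𝓞 K)) : ℕ) : ℝ) *
        (q : ℝ) ^ (Module.finrank ℚ K)) (3 * (1 + 4)) (Fintype.card (K →+* ℂ)) (chs χ)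
        (L q χ) := by
      refine mem_of_fec hR (μ := fun i => ((e i : ℕ) : ℂ)) (fun i => ?_)
        (fun i => ?_) (by norm_num) hFE hLin (chs_mul χ) (chs_one χ) (chs_le χ) ?_
      · rw [hμre]
        have : (0 : ℝ) ≤ e i := Nat.cast_nonneg _
        linarith
      · rw [Complex.norm_natCast]
        have : (e i : ℝ) ≤ 1 := by exact_mod_cast hG.he i
        linarith
      · refine ser_of_ld hLin (chs_one χ) (chs_mul χ) (chs_le χ) (fun s _ => hd s)
          (fun s h => by rw [hs s h]; exact d3 s h) (fun s h => ?_) ?_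
        · have h5 : deriv (L q χ) s = deriv (LI (Pool.Agent.Y773.tw ψ χ)) s := by
            refine Filter.EventuallyEq.deriv_eq ?_
            have h6 : {z : ℂ | 1 < z.re} ∈ 𝓝 s :=
              (isOpen_lt continuous_const Complex.continuous_re).mem_nhds h
            filter_upwards [h6] with z hz
            exact hs z hz
          rw [h5, hs s h, d4 s h]
          congr 1
          refine tsum_congr fun n => ?_
          rw [d11 q χ n]
          rfl
        · have h7 := Pool.Agent.Y772.DK.LA_tendsto (K := K)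
            (a := fun 𝔞 => (Pool.Agent.Y773.tw ψ χ) 𝔞) (map_zero _) hψ1
          simp only [map_one] at h7
          refine h7.congr' ?_
          filter_upwards [eventually_gt_atTop 1] with x hx
          rw [hs _ (by simpa using hx)]
          rfl
    rw [Pool.Agent.Y773.G.card_emb] at hmem
    exact ⟨hmem, fun s h0 h1 =>
      refl_ord hR (fun i => by rw [hμre]; exact Nat.cast_nonneg _) hFE h0 h1⟩
  refine ⟨⟨cc ψ, ((Ideal.absNorm 𝔣 * Ideal.absNorm (differentIdeal ℤ (𝓞 K)) : ℕ) : ℝ),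
    3 * (1 + 4), _, Nat.cast_nonneg _, by norm_num, hLin, sqb_of_bdd b1, ?_⟩, ?_⟩
  · intro q χ hq hqN hχ
    exact ⟨(hL q χ hq hqN hχ).1, L q χ, (hkey q χ hq hqN hχ).1, fun _ => 1,
      differentiable_const _, fun s => by rw [mul_one]⟩
  · exact fun q χ hq hqN hχ => (hkey q χ hq hqN hχ).2

end Pool.Agent.KS6_85.AR
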