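import Pool.Agent.KS6_85.AR.Main

/-!
# Representations whose character is a combination of induced linear characters
-/

set_option autoImplicit false
set_option linter.unusedSectionVars false

namespace Pool.Agent.KS6_85.AR

open NumberField IsDedekindDomain Filter Topology Pool.Agent.H921R2.TatePole Pool.Agent.W353.NF
  Pool.Agent.Q5.BR Pool.Agent.H541R3.ART Pool.Agent.Q92.AR Pool.Agent.KS6_16.TW
open Pool.Agent.Q92.RT (induced induced_pair)
open Pool.Agent.KS6_85.SD (reg2)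

section
variable {K M : Type} [Field K] [NumberField K] [Field M] [NumberField M] [Algebra K M]
  [IsGalois K M]
variable {V : Type} [AddCommGroup V] [Module ℂ V] [FiniteDimensional ℂ V]

/-- the character is a combination of characters induced by linear characters of subgroups of index
at most `n` -/
def InSpan (ρ : Representation ℂ (M ≃ₐ[K] M) V) (n : ℕ) : Prop :=
  ∃ (ι : Type) (_ : Fintype ι) (H : ι → Subgroup (M ≃ₐ[K] M)) (ψ : ∀ i, H i →* ℂˣ) (c : ι → ℂ),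
    (∀ i, (H i).index ≤ n) ∧ ∀ g, ρ.character g = ∑ i, c i * induced (H i) (ψ i) g

/-- **The main theorem.** -/
theorem main_span (ρ : Representation ℂ (M ≃ₐ[K] M) V) {n m : ℕ} (hs : InSpan ρ n)
    (hnm : m = n * Module.finrank ℚ K) (hm : m ≤ 3) :
    ∃ (N : ℕ) (C : ℝ), 0 < N ∧ 0 ≤ C ∧
    (∀ (q : ℕ) (χ : DirichletCharacter ℂ q), 2 ≤ q → Nat.Coprime q N → χ.IsPrimitive →
      Good K M q χ) ∧
    ∀ (P : HeightOneSpectrum (𝓞 K) → Ideal (𝓞 M)) (σ : HeightOneSpectrum (𝓞 K) → M ≃ₐ[K] M)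
      (_ : ∀ v, IsFrob v (P v) (σ v)) (F : (q : ℕ) → DirichletCharacter ℂ q → ℂ → ℂ),
      (∀ (q : ℕ) (χ : DirichletCharacter ℂ q), 2 ≤ q → Nat.Coprime q N → χ.IsPrimitive →
        IsL P σ ρ χ (F q χ)) →
      Bds N m C F ∧ ∀ (q : ℕ) (χ : DirichletCharacter ℂ q), 2 ≤ q →
        Nat.Coprime q N → χ.IsPrimitive → ∀ δ t H : ℝ,
          {s : ℂ | s ∈ reg2 δ t H ∧ (meromorphicOrderAt (F q χ) s).untop₀ ≠ 0}.Finite := by
  classical
  have : Fintype (M ≃ₐ[K] M) := Fintype.ofFinite _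
  obtain ⟨ι, _, H, ψ, c, hind, hchar⟩ := hs
  obtain ⟨N₀, hN0, hN⟩ := exists_level (K := K) (M := M)
  choose Ni L hNi hFam hL using fun i => family (K := K) (M := M) (H i) (ψ i)
  set N : ℕ := N₀ * ∏ i, Ni i with hNd
  have hNN : 0 < N := Nat.pos_of_ne_zero
    (mul_ne_zero hN0 (Finset.prod_ne_zero_iff.2 fun i _ => hNi i))
  have hdvd : ∀ i, Ni i ∣ N := fun i =>
    (Finset.dvd_prod_of_mem Ni (Finset.mem_univ i)).trans (dvd_mul_left _ _)
  have hgood : ∀ (q : ℕ) (χ : DirichletCharacter ℂ q), 2 ≤ q → Nat.Coprime q N → χ.IsPrimitive →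
      Good K M q χ := fun q χ h2 hc hp =>
    ⟨h2, fun H ψ => Nat.Coprime.coprime_dvd_right ((hN H ψ).trans (dvd_mul_right _ _)) hc, hp⟩
  set B : ℝ := ∑ i, ‖c i‖ with hB
  have hB0 : 0 ≤ B := Finset.sum_nonneg fun i _ => norm_nonneg _
  obtain ⟨C, hC, hbd⟩ := bds_of (N := N) (m := m) (mi := fun i => (H i).index * Module.finrank ℚ K)
    hB0 hFam hdvd (fun i => by rw [hnm]; exact Nat.mul_le_mul_right _ (hind i)) hm
  refine ⟨N, C, hNN, hC, hgood, ?_⟩
  intro P σ hPσ F hF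
  have h0 := hbd 1 F zero_le_one ?_
  · rw [mul_one] at h0
    exact h0
  intro q χ hq hqN hχ s hs0
  have hg := hgood q χ hq hqN hχ
  obtain ⟨mm, hmm⟩ := char_sum ρ
  have h1 := order_rep hg hPσ ρ (hF q χ hq hqN hχ) hs0 hmm
  rw [h1, WithTop.untop₀_coe, one_mul]
  set θ := theta (twData hg hs0).ord with hθ
  set o : ι → ℕ := fun i => analyticOrderNatAt (L i q χ) s with ho
  have hcard : (0 : ℝ) < Nat.card (M ≃ₐ[K] M) := by exact_mod_cast Nat.card_pos
  have hcardc : (Nat.card (M ≃ₐ[K] M) : ℂ) ≠ 0 := by exact_mod_cast Nat.card_pos.ne'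
  have h2 : ∀ i, ∑ g, induced (H i) (ψ i) g * θ g⁻¹ = (o i : ℂ) * Nat.card (M ≃ₐ[K] M) :=
    fun i => induced_pair (H i) (ψ i) (fun g x => (twData hg hs0).isHeilbronn.conj g x)
      (order_lin hg (hL i q χ hq (Nat.Coprime.coprime_dvd_right (hdvd i) hqN) hχ) hs0)
  have h3 : ∑ g, ρ.character g * θ g⁻¹ = (∑ i, c i * (o i : ℂ)) * Nat.card (M ≃ₐ[K] M) := by
    simp_rw [hchar, Finset.sum_mul]
    rw [Finset.sum_comm]
    refine Finset.sum_congr rfl fun i _ => ?_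
    simp_rw [mul_assoc]
    rw [← Finset.mul_sum, h2 i]
  have h4 : ∑ g, ρ.character g * θ g⁻¹ =
      ((∑ φ ∈ irrF (M ≃ₐ[K] M), (mm φ : ℤ) * (twData hg hs0).ord φ : ℤ) : ℂ) *
        Nat.card (M ≃ₐ[K] M) := by
    have h5 : ∑ g, ρ.character g * θ g⁻¹ = ∑ g, θ g * ρ.character g⁻¹ := by
      refine Fintype.sum_equiv (Equiv.inv _) _ _ fun g => ?_
      rw [Equiv.inv_apply, inv_inv, mul_comm]
    rw [h5]
    simp_rw [hmm, Finset.mul_sum]
    rw [Finset.sum_comm]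
    push_cast
    rw [Finset.sum_mul]
    refine Finset.sum_congr rfl fun φ hφ => ?_
    have h6 := theta_pair (twData hg hs0).ord (mem_irrF.1 hφ)
    have h7 : ∑ g, θ g * ((mm φ : ℂ) * φ g⁻¹) = (mm φ : ℂ) * ∑ g, θ g * φ g⁻¹ := by
      rw [Finset.mul_sum]
      exact Finset.sum_congr rfl fun g _ => by ring
    rw [h7, h6]
    ring
  have h5 : ((∑ φ ∈ irrF (M ≃ₐ[K] M), (mm φ : ℤ) * (twData hg hs0).ord φ : ℤ) : ℂ) =
      ∑ i, c i * (o i : ℂ) := by
    rw [h3] at h4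
    exact (mul_right_cancel₀ hcardc h4).symm
  have h6 : |((∑ φ ∈ irrF (M ≃ₐ[K] M), (mm φ : ℤ) * (twData hg hs0).ord φ : ℤ) : ℝ)| =
      ‖∑ i, c i * (o i : ℂ)‖ := by
    rw [← h5, Complex.norm_intCast]
  rw [h6]
  refine (norm_sum_le _ _).trans ?_
  rw [hB, Finset.sum_mul]
  refine Finset.sum_le_sum fun i _ => ?_
  rw [norm_mul, Complex.norm_natCast]
  exact mul_le_mul_of_nonneg_left (Finset.single_le_sum (f := fun j => (o j : ℝ))
    (fun j _ => Nat.cast_nonneg _) (Finset.mem_univ i)) (norm_nonneg _)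

end

end Pool.Agent.KS6_85.AR
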