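import Pool.Agent.KS6_85.AR.Main
import Pool.Graph.R_pool_sql_team_seeded_3dad9d7b.NH12.NV.Mem2
import Pool.Graph.R_seed8.TH270.MS.QSys

/-!
# Odd two-dimensional representations: newforms of weight one
-/

set_option autoImplicit false
set_option linter.unusedSectionVars false

namespace Pool.Agent.KS6_85.AR

open Finset Filter Topology Complex NumberField IsDedekindDomain
open UpperHalfPlane MatrixGroups CongruenceSubgroup
open Pool.Agent.R399.TW Pool.Agent.R399.TM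
open Pool.Agent.W192.WO (Newf1)
open Pool.Agent.NH12.NV (mu2 exists_satake twist_data norm_cf_le summ_of_bdd)
open Pool.Agent.Y767.CA (FEc cf)
open Pool.Agent.KS6_85.SD (reg2 refl_ord ord_ne_top)
open Pool.Agent.KS6_16.TW (IsFrob IsL eulerPoly eulerPoly_ne exists_isFrob chn)
open Pool.Agent.H921R2.TatePole (nm)
open Pool.Agent.Q92.AR (Continues Continues.order_eq)
open scoped ComplexConjugate

/-- **the twists of a newform of weight one** -/
theorem newf1_fam {N : ℕ} [NeZero N] {η : DirichletCharacter ℂ N}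
    {f : CuspForm (Gamma1 N : Subgroup (GL (Fin 2) ℝ)) 1} {w : ℂ} (hf : Newf1 N η f w) :
    ∃ L : (q : ℕ) → DirichletCharacter ℂ q → ℂ → ℂ, Fam 2 N L ∧
      ∀ (q : ℕ) (χ : DirichletCharacter ℂ q), 1 ≤ q → Nat.Coprime q N → χ.IsPrimitive →
        Differentiable ℂ (L q χ) ∧ ∀ s : ℂ, 1 < s.re → HasProd (fun p : Nat.Primes =>
        (1 - χ ((p : ℕ) : ZMod q) * Pool.Agent.W192.CY.cf f p * ((p : ℕ) : ℂ) ^ (-s) +
          χ ((p : ℕ) : ZMod q) ^ 2 * η ((p : ℕ) : ZMod N) *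
            ((p : ℕ) : ℂ) ^ (-2 * s))⁻¹) (L q χ s) := by
  classical
  obtain ⟨α, hα1, hα2⟩ := exists_satake hf
  have hN : (0 : ℝ) < N := by exact_mod_cast Nat.pos_of_ne_zero (NeZero.ne N)
  have hex : ∀ (q : ℕ) (χ : DirichletCharacter ℂ q), ∃ F : ℂ → ℂ,
      (1 ≤ q → Nat.Coprime q N → χ.IsPrimitive →
      FEc ((N : ℝ) * (q : ℝ) ^ 2) mu2 F ∧
      (∀ s : ℂ, 1 < s.re → HasProd (fun p : Nat.Primes =>
        (1 - χ ((p : ℕ) : ZMod q) * Pool.Agent.W192.CY.cf f p * ((p : ℕ) : ℂ) ^ (-s) +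
          χ ((p : ℕ) : ZMod q) ^ 2 * η ((p : ℕ) : ZMod N) *
            ((p : ℕ) : ℂ) ^ (-2 * s))⁻¹) (F s))) := by
    intro q χ
    by_cases h : 1 ≤ q ∧ Nat.Coprime q N ∧ χ.IsPrimitive
    · obtain ⟨h1, h2, h3⟩ := h
      have : NeZero q := ⟨by omega⟩
      obtain ⟨F, hF1, hF2, hF3⟩ := twist_data hf q χ h2 h3
      exact ⟨F, fun _ _ _ => ⟨hF1, hF2⟩⟩
    · exact ⟨fun _ => 0, fun h1 h2 h3 => absurd ⟨h1, h2, h3⟩ h⟩
  choose F hF using hex
  have hLin : Lin (cf α) :=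
    fun σ hσ => Pool.Agent.Y767.CA.summable_lin (fun σ hσ => summ_of_bdd (norm_cf_le hα1) hσ) hσ
  have hmu : ∀ i, 0 ≤ (mu2 i).re := fun i => by fin_cases i <;> simp [mu2]
  have hmem : ∀ (q : ℕ) (χ : DirichletCharacter ℂ q), 2 ≤ q → Nat.Coprime q N → χ.IsPrimitive →
      Mem (cf α) ((N : ℝ) * (q : ℝ) ^ 2) 15 2 (chs χ) (F q χ) := by
    intro q χ hq hqN hχ
    obtain ⟨h1, h2⟩ := hF q χ (by omega) hqN hχ
    have hq0 : (0 : ℝ) < q := by
      have : 0 < q := by omega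
      exact_mod_cast this
    have hser : ∀ s : ℂ, 1 < s.re → F q χ s = LSeries (tw (chs χ) (E (cf α))) s := by
      refine ser_of_euler (fun p hp j => (hα1 p j).trans ?_)
        (fun σ hσ => summ_of_bdd (norm_cf_le hα1) hσ) (chs_one χ) (chs_mul χ) (chs_le χ) h1.diff
        fun s hs => ?_
      · rw [Real.one_le_sqrt]
        exact_mod_cast hp.one_lt.le
      · refine (h2 s hs).congr_fun ?_
        intro p
        obtain ⟨e1, e2⟩ := hα2 p p.2
        have e3 : ((p : ℕ) : ℂ) ^ (-2 * s) = (((p : ℕ) : ℂ) ^ (-s)) ^ 2 := by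
          rw [← Complex.cpow_nat_mul]
          congr 1
          push_cast
          ring
        rw [Fin.prod_univ_two, ← mul_inv, ← e1, ← e2, e3]
        congr 1
        unfold chs
        ring
    have h3 := mem_of_fec (κ := Fin 2) (R := (N : ℝ) * (q : ℝ) ^ 2) (V := 4) (by positivity)
      (μ := mu2) (fun i => by fin_cases i <;> simp [mu2] <;> norm_num)
      (fun i => by fin_cases i <;> simp [mu2] <;> norm_num) (by norm_num) h1
      (c := cf α) (ψ := chs χ)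
      (fun σ hσ => Pool.Agent.Y767.CA.summable_lin
        (fun σ hσ => summ_of_bdd (norm_cf_le hα1) hσ) hσ)
      (chs_mul χ) (chs_one χ) (chs_le χ) hser
    rw [Fintype.card_fin] at h3
    norm_num at h3
    exact h3
  refine ⟨F, ⟨?_, ?_, ?_⟩, ?_⟩
  · refine ⟨cf α, N, 15, _, hN.le, by norm_num, hLin, sqb_of_bdd (norm_cf_le hα1), ?_⟩
    intro q χ hq hqN hχ
    exact ⟨(hF q χ (by omega) hqN hχ).1.diff, F q χ, hmem q χ hq hqN hχ, fun _ => 1,
      differentiable_const _, fun s => by rw [mul_one]⟩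
  · refine ⟨cf α, N, 15, _, hN.le, by norm_num, hLin, sqb_of_bdd (norm_cf_le hα1), ?_⟩
    intro q χ hq hqN hχ
    have hq0 : (0 : ℝ) < q := by
      have : 0 < q := by omega
      exact_mod_cast this
    exact ⟨F q χ, hmem q χ hq hqN hχ, fun s _ h => h,
      fun s h0 h1 hs => refl_zero (by positivity) hmu (hF q χ (by omega) hqN hχ).1 h0 h1 hs⟩
  · intro q χ hq hqN hχ s h0 h1
    have hq0 : (0 : ℝ) < q := by
      have : 0 < q := by omega
      exact_mod_cast this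
    exact refl_ord (by positivity) hmu (hF q χ (by omega) hqN hχ).1 h0 h1
  · intro q χ hq hco hχ
    obtain ⟨h1, h2⟩ := hF q χ hq hco hχ
    exact ⟨h1.diff, h2⟩

/-- the coefficients of a quadratic polynomial without zeros in the unit disc -/
theorem quad_bd {a b : ℂ} (h : ∀ x : ℂ, ‖x‖ < 1 → 1 - a * x + b * x ^ 2 ≠ 0) :
    ‖a‖ ≤ 2 ∧ (b = 0 → ‖a‖ ≤ 1) := by
  obtain ⟨d, hd⟩ := IsAlgClosed.exists_pow_nat_eq (a ^ 2 - 4 * b) (n := 2) (by norm_num)
  set α : ℂ := (a + d) / 2 with hα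
  set β : ℂ := (a - d) / 2 with hβ
  have hsum : α + β = a := by rw [hα, hβ]; ring
  have hprod : α * β = b := by
    rw [hα, hβ]
    linear_combination (-1 / 4) * hd
  have key : ∀ α β : ℂ, α + β = a → α * β = b → ‖α‖ ≤ 1 := by
    intro α β h1 h2
    by_contra hcon
    push Not at hcon
    have hα0 : α ≠ 0 := by
      intro h3
      rw [h3, norm_zero] at hcon
      linarith
    refine h α⁻¹ ?_ ?_
    · rw [norm_inv]
      exact inv_lt_one_of_one_lt₀ hcon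
    · rw [← h1, ← h2]
      field_simp
      ring
  have hα1 := key α β hsum hprod
  have hβ1 := key β α (by rw [add_comm]; exact hsum) (by rw [mul_comm]; exact hprod)
  refine ⟨?_, fun hb => ?_⟩
  · rw [← hsum]
    exact (norm_add_le _ _).trans (by linarith)
  · rw [hb] at hprod
    rcases mul_eq_zero.1 hprod with h1 | h1
    · rw [← hsum, h1, zero_add]
      exact hβ1
    · rw [← hsum, h1, add_zero]
      exact hα1

section
variable {M : Type} [Field M] [NumberField M] [IsGalois ℚ M]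
variable {V : Type} [AddCommGroup V] [Module ℂ V] [FiniteDimensional ℂ V]

/-- `ρ` and `f` have the same Euler factors -/
def Att {N : ℕ} (η : DirichletCharacter ℂ N) (c : ℕ → ℂ) (ρ : Representation ℂ (M ≃ₐ[ℚ] M) V) :
    Prop :=
  ∀ (v : HeightOneSpectrum (𝓞 ℚ)) (P : Ideal (𝓞 M)) (σ : M ≃ₐ[ℚ] M), IsFrob v P σ →
    ∀ x : ℂ, eulerPoly ρ P σ x = 1 - c (nm v) * x + η ((nm v : ℕ) : ZMod N) * x ^ 2

/-- the bounds for the coefficients -/
theorem att_bd {N : ℕ} {η : DirichletCharacter ℂ N} {c : ℕ → ℂ}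
    {ρ : Representation ℂ (M ≃ₐ[ℚ] M) V} (h : Att η c ρ) {p : ℕ} (hp : p.Prime) :
    ‖c p‖ ≤ 2 ∧ (η (p : ZMod N) = 0 → ‖c p‖ ≤ 1) := by
  set v : HeightOneSpectrum (𝓞 ℚ) :=
    (Rat.HeightOneSpectrum.primesEquiv (R := 𝓞 ℚ)).symm ⟨p, hp⟩ with hv
  have hnm : nm v = p := by
    rw [Pool.Agent.TH270.MS.nm_rat]
    exact congrArg (fun x : Nat.Primes => (x : ℕ)) (Equiv.apply_symm_apply
      (Rat.HeightOneSpectrum.primesEquiv (R := 𝓞 ℚ)) (⟨p, hp⟩ : Nat.Primes))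
  obtain ⟨P, σ, hPσ⟩ := exists_isFrob (M := M) v
  have h1 := h v P σ hPσ
  rw [hnm] at h1
  refine quad_bd fun x hx => ?_
  rw [← h1 x]
  exact eulerPoly_ne ρ hPσ hx

/-- **odd two-dimensional representations** -/
theorem main_wt {N : ℕ} [NeZero N] {η : DirichletCharacter ℂ N}
    {f : CuspForm (Gamma1 N : Subgroup (GL (Fin 2) ℝ)) 1} {w : ℂ} (hf : Newf1 N η f w)
    {ρ : Representation ℂ (M ≃ₐ[ℚ] M) V} (hρ : Att η (Pool.Agent.W192.CY.cf f) ρ) :
    ∃ C : ℝ, 0 ≤ C ∧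
    ∀ (P : HeightOneSpectrum (𝓞 ℚ) → Ideal (𝓞 M)) (σ : HeightOneSpectrum (𝓞 ℚ) → M ≃ₐ[ℚ] M)
      (_ : ∀ v, IsFrob v (P v) (σ v)),
      (∀ (q : ℕ) (χ : DirichletCharacter ℂ q), 1 ≤ q → Nat.Coprime q N → χ.IsPrimitive →
        ∃ F : ℂ → ℂ, Differentiable ℂ F ∧ IsL P σ ρ χ F) ∧
      ∀ F : (q : ℕ) → DirichletCharacter ℂ q → ℂ → ℂ,
      (∀ (q : ℕ) (χ : DirichletCharacter ℂ q), 2 ≤ q → Nat.Coprime q N → χ.IsPrimitive →
        IsL P σ ρ χ (F q χ)) →
      Bds N 2 C F ∧ ∀ (q : ℕ) (χ : DirichletCharacter ℂ q), 2 ≤ q →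
        Nat.Coprime q N → χ.IsPrimitive → ∀ δ t H : ℝ,
          {s : ℂ | s ∈ reg2 δ t H ∧ (meromorphicOrderAt (F q χ) s).untop₀ ≠ 0}.Finite := by
  classical
  obtain ⟨L, hL, hL2⟩ := newf1_fam hf
  obtain ⟨C, hC, hbd⟩ := bds_of (ι := Unit) (N := N) (m := 2) (Ni := fun _ => N) (mi := fun _ => 2)
    (B := 1) zero_le_one (L := fun _ => L) (fun _ => hL) (fun _ => dvd_rfl) (fun _ => le_rfl)
    (by norm_num)
  refine ⟨C, hC, fun P σ hPσ => ?_⟩
  -- the Euler product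
  have hE : ∀ (q : ℕ) (χ : DirichletCharacter ℂ q), 1 ≤ q → Nat.Coprime q N → χ.IsPrimitive →
      IsL P σ ρ χ (L q χ) := by
    intro q χ hq hqN hχ
    obtain ⟨h1, h2⟩ := hL2 q χ hq hqN hχ
    refine ⟨fun s _ => (h1.analyticAt s).meromorphicAt, fun s hs => ?_⟩
    have h3 := h2 s hs
    rw [← (Rat.HeightOneSpectrum.primesEquiv (R := 𝓞 ℚ)).hasProd_iff] at h3
    refine h3.congr_fun fun v => ?_
    simp only [Function.comp]
    rw [hρ v (P v) (σ v) (hPσ v), ← Pool.Agent.TH270.MS.nm_rat]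
    congr 1
    unfold Pool.Agent.KS6_16.TW.xv chn
    have hp0 : ((nm v : ℕ) : ℂ) ≠ 0 := by
      rw [Pool.Agent.TH270.MS.nm_rat]
      exact_mod_cast (Rat.HeightOneSpectrum.primesEquiv v).2.ne_zero
    have e3 : ((nm v : ℕ) : ℂ) ^ (-2 * s) = (((nm v : ℕ) : ℂ) ^ (-s)) ^ 2 := by
      rw [← Complex.cpow_nat_mul]
      congr 1
      push_cast
      ring
    rw [e3]
    ring
  refine ⟨fun q χ hq hqN hχ => ⟨L q χ, (hL2 q χ hq hqN hχ).1, hE q χ hq hqN hχ⟩, fun F hF => ?_⟩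
  have h1 := hbd 1 F zero_le_one (fun q χ hq hqN hχ s hs => by
    obtain ⟨g1, g2⟩ := hF q χ hq hqN hχ
    obtain ⟨g3, g4⟩ := hE q χ (by omega) hqN hχ
    have hc1 : Continues (F q χ) (F q χ) := ⟨g1, fun _ _ => rfl⟩
    have hc2 : Continues (L q χ) (L q χ) := ⟨g3, fun _ _ => rfl⟩
    have h2 := hc1.order_eq hc2 (fun z hz => (g2 z hz).unique (g4 z hz)) s
    have hd := (hL2 q χ (by omega) hqN hχ).1
    have hi : (⟨q, χ⟩ : Σ q : ℕ, DirichletCharacter ℂ q) ∈ idx N q := by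
      rw [mem_idx]
      exact ⟨⟨hq, le_rfl⟩, hqN, hχ⟩
    have hne := Pool.Agent.KS6_85.SD.two_ne (Pool.Agent.KS6_85.SD.fo_mem hL.fo hi).2
    have h8 : analyticOrderAt (L q χ) s ≠ ⊤ := ord_ne_top hd hne s
    rw [h2, (hd.analyticAt s).meromorphicOrderAt_eq]
    obtain ⟨k, hk⟩ := ENat.ne_top_iff_exists.1 h8
    unfold analyticOrderNatAt
    simp only [Finset.univ_unique, Finset.sum_singleton, mul_one, one_mul]
    rw [← hk]
    simp)
  rw [mul_one] at h1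
  exact h1

end

end Pool.Agent.KS6_85.AR
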